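import Pool.Agent.CMG.Stmts

set_option autoImplicit false

namespace Pool.Agent.CMG.H8

open Pool.Agent.LSG Pool.Agent.CMG

/-- **HOM** -/
theorem hom : HomStmt := by
  intro D _ x hx
  let f : ℤ →+ Additive D := zmultiplesHom (Additive D) (Additive.ofMul x)
  have hf : Function.Injective f := by
    rw [injective_iff_map_eq_zero]
    intro n hn
    by_contra h0
    have h1 : x ^ n = 1 := hn
    have h2 : x ^ n.natAbs = 1 := by
      rcases Int.natAbs_eq n with h | h
      · rw [h, zpow_natCast] at h1
        exact h1
      · rw [h, zpow_neg, inv_eq_one, zpow_natCast] at h1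
        exact h1
    exact hx _ (Int.natAbs_pos.2 h0) h2
  obtain ⟨h, hh⟩ := (Module.Baer.of_divisible ℝ).extension_property_addMonoidHom f hf
    (Int.castAddHom ℝ)
  refine ⟨fun d => h (Additive.ofMul d), fun a b => ?_, ?_⟩
  · show h (Additive.ofMul (a * b)) = h (Additive.ofMul a) + h (Additive.ofMul b)
    rw [ofMul_mul, map_add]
  · have h1 := DFunLike.congr_fun hh 1
    have h2 : f 1 = Additive.ofMul x := one_zsmul _
    rw [AddMonoidHom.comp_apply, h2] at h1
    show h (Additive.ofMul x) = 1
    rw [h1]
    exact Int.cast_one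

end Pool.Agent.CMG.H8
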