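import Pool.Agent.CMG.Stmts

set_option autoImplicit false

open Set Topology MeasureTheory

namespace Pool.Agent.CMG.H8

open Pool.Agent.LSG Pool.Agent.CMG

/-- **NCG** -/
theorem ncg (hpwn : PwnStmt) (htra : TraStmt) (hmon : MonStmt) (hopb : OpbStmt) : NcgStmt := by
  intro K _ _ _ _ _ hK
  -- the component of 1 is not trivial
  obtain ⟨g, hg, hg1⟩ : ∃ g ∈ connectedComponent (1 : K), g ≠ 1 := by
    by_contra hcon
    push Not at hcon
    apply hK
    rw [totallyDisconnectedSpace_iff_connectedComponent_singleton]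
    intro x
    refine Set.Subset.antisymm (fun y hy => ?_) (Set.singleton_subset_iff.2 mem_connectedComponent)
    have h1 : x⁻¹ * y ∈ connectedComponent (x⁻¹ * x) :=
      (continuous_const_mul x⁻¹).image_connectedComponent_subset x ⟨y, hy, rfl⟩
    rw [inv_mul_cancel] at h1
    have h2 := hcon _ h1
    show y = x
    exact (inv_mul_eq_one.1 h2).symm
  let C : Subgroup K := Subgroup.connectedComponentOfOne K
  have hCc : IsClosed (C : Set K) := isClosed_connectedComponent
  haveI : CompactSpace C := isCompact_iff_compactSpace.1 hCc.isCompact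
  haveI : PreconnectedSpace C := Subtype.preconnectedSpace isPreconnected_connectedComponent
  haveI : TopologicalSpace.MetrizableSpace C := Topology.IsEmbedding.subtypeVal.metrizableSpace
  obtain ⟨n, ρ, hρ, hρg⟩ := hpwn C (⟨g, hg⟩ : C) (fun h => hg1 (congrArg Subtype.val h))
  obtain ⟨g', hg'⟩ : ∃ g' : C, ∀ m : ℕ, 0 < m → (ρ g') ^ m ≠ 1 := by
    by_contra hcon
    push Not at hcon
    exact hρg (htra C n ρ hρ hcon _)
  obtain ⟨B, hBc, hBcomm, χ, hχ⟩ := hmon C n ρ hρ g' hg'
  haveI : CompactSpace B := isCompact_iff_compactSpace.1 hBc.isCompact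
  haveI : TopologicalSpace.MetrizableSpace B := Topology.IsEmbedding.subtypeVal.metrizableSpace
  obtain ⟨γ, hγ, hadd, t, ht⟩ := hopb B hBcomm χ hχ
  refine ⟨fun t => ((γ t : C) : K), continuous_subtype_val.comp (continuous_subtype_val.comp hγ),
    fun s t => ?_, t, fun h => ht ?_⟩
  · show ((γ (s + t) : C) : K) = _
    rw [hadd]
    rfl
  · apply Subtype.ext
    apply Subtype.ext
    exact h

end Pool.Agent.CMG.H8
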